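import Pool.Agent.Lib.MP_3f465e_co.Incidence

/-!
The bound `f₀ ≥ 2 n - 4` from the incidence axioms and Melchior's inequality.
-/

namespace Pool.Agent.Lib.MP_3f465e_co

open Finset Classical

variable {ι β : Type*}

variable {L : Finset ι} {V X Y : Finset β} {I : β → ι → Prop}

/-- The vertices of multiplicity `j`. -/
noncomputable def cls (L : Finset ι) (V : Finset β) (I : β → ι → Prop) (j : ℕ) : Finset β :=
  V.filter (fun v => deg L I v = j)

lemma sum_cls {V' : Finset β} (hV' : V' ⊆ V) (hk : ∀ v ∈ V, 2 ≤ deg L I v ∧ deg L I v ≤ 6)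
    (g : ℕ → ℕ) :
    ∑ v ∈ V', g (deg L I v) = g 2 * (V'.filter (fun v => deg L I v = 2)).card +
      g 3 * (V'.filter (fun v => deg L I v = 3)).card +
      g 4 * (V'.filter (fun v => deg L I v = 4)).card +
      g 5 * (V'.filter (fun v => deg L I v = 5)).card +
      g 6 * (V'.filter (fun v => deg L I v = 6)).card := by
  simp only [Finset.card_filter, Finset.mul_sum, ← Finset.sum_add_distrib]
  apply Finset.sum_congr rfl
  intro v hv
  obtain ⟨h1, h2⟩ := hk v (hV' hv)
  generalize deg L I v = k at h1 h2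
  interval_cases k <;> simp

lemma on_cls (a : ι) (j : ℕ) : on (cls L V I j) I a =
    ((V.filter (fun v => I v a)).filter (fun v => deg L I v = j)).card := by
  unfold on cls
  rw [Finset.filter_filter, Finset.filter_filter]
  congr 1
  ext v
  simp only [Finset.mem_filter]
  tauto

lemma sum_on_cls (j : ℕ) : ∑ a ∈ L, on (cls L V I j) I a = j * (cls L V I j).card := by
  rw [sum_on, Finset.sum_const_nat (m := j)]
  · rw [mul_comm]
  · intro v hv
    exact (Finset.mem_filter.1 hv).2

theorem Inc.bound (h : Inc L V I) (hM : ∑ v ∈ V, deg L I v + 3 ≤ 3 * V.card)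
    (hk : ∀ v ∈ V, deg L I v + 2 ≤ L.card) (hn : 10 ≤ L.card) : 2 * L.card ≤ V.card + 4 := by
  by_contra hlt
  push Not at hlt
  -- Step A
  have hA : ∀ v ∈ V, 3 * deg L I v ≤ L.card + 4 := by
    intro v hv
    by_contra hcon
    push Not at hcon
    have hp := h.pencil hv
    have h1 := hk v hv
    have h1' : (deg L I v : ℤ) + 2 ≤ L.card := by exact_mod_cast h1
    have h2' : (L.card : ℤ) + 5 ≤ 3 * deg L I v := by exact_mod_cast hcon
    have h3' : (V.card : ℤ) + 5 ≤ 2 * L.card := by
      have : V.card + 5 ≤ 2 * L.card := by omega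
      exact_mod_cast this
    nlinarith [mul_nonneg (sub_nonneg.2 h1') (sub_nonneg.2 h2')]
  have hpairs := h.pairs
  -- sum of squares, in integers
  have hsq : (∑ v ∈ V, (deg L I v : ℤ) * deg L I v) =
      (L.card : ℤ) * L.card - L.card + ∑ v ∈ V, (deg L I v : ℤ) := by
    have hle : ∀ m : ℕ, m ≤ m * m := fun m => Nat.le_mul_self m
    have h1 : ((∑ v ∈ V, (deg L I v * deg L I v - deg L I v) : ℕ) : ℤ) =
        ((L.card * L.card - L.card : ℕ) : ℤ) := by rw [hpairs]
    rw [Nat.cast_sub (hle _), Nat.cast_sum] at h1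
    rw [Finset.sum_congr rfl (fun v _ => Nat.cast_sub (hle (deg L I v))), Finset.sum_sub_distrib]
      at h1
    push_cast at h1
    linarith
  have hM' : (∑ v ∈ V, (deg L I v : ℤ)) + 3 ≤ 3 * V.card := by exact_mod_cast hM
  -- Step B
  obtain ⟨m, hm1, hm2⟩ : ∃ m : ℕ, 3 * m ≤ L.card + 4 ∧ ∀ v ∈ V, deg L I v ≤ m := by
    refine ⟨(L.card + 4) / 3, by omega, fun v hv => ?_⟩
    have := hA v hv
    omega
  have hconv : 0 ≤ ∑ v ∈ V, ((deg L I v : ℤ) - 2) * ((m : ℤ) - deg L I v) := by
    apply Finset.sum_nonneg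
    intro v hv
    have h1 := h.two v hv
    have h2 := hm2 v hv
    apply mul_nonneg
    · have : (2 : ℤ) ≤ deg L I v := by exact_mod_cast h1
      linarith
    · have : (deg L I v : ℤ) ≤ m := by exact_mod_cast h2
      linarith
  have hexp : ∑ v ∈ V, ((deg L I v : ℤ) - 2) * ((m : ℤ) - deg L I v) =
      ((m : ℤ) + 2) * (∑ v ∈ V, (deg L I v : ℤ)) - (∑ v ∈ V, (deg L I v : ℤ) * deg L I v) -
        2 * m * V.card := by
    rw [Finset.mul_sum, ← Finset.sum_sub_distrib]
    have : (2 : ℤ) * m * V.card = ∑ v ∈ V, 2 * (m : ℤ) := by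
      rw [Finset.sum_const, nsmul_eq_mul]; ring
    rw [this, ← Finset.sum_sub_distrib]
    apply Finset.sum_congr rfl
    intro v _
    ring
  rw [hexp, hsq] at hconv
  have hVn : (V.card : ℤ) + 5 ≤ 2 * L.card := by
    have : V.card + 5 ≤ 2 * L.card := by omega
    exact_mod_cast this
  have hm1' : 3 * (m : ℤ) ≤ L.card + 4 := by exact_mod_cast hm1
  have hn15 : L.card ≤ 15 := by
    by_contra hcon
    push Not at hcon
    have hc : (16 : ℤ) ≤ L.card := by exact_mod_cast hcon
    generalize (∑ v ∈ V, (deg L I v : ℤ)) = S at *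
    generalize (V.card : ℤ) = F at *
    generalize (L.card : ℤ) = n at *
    have hm0 : (0 : ℤ) ≤ m := Int.natCast_nonneg m
    have h1 : ((m : ℤ) + 1) * S ≤ (m + 1) * (3 * F - 3) :=
      mul_le_mul_of_nonneg_left (by linarith) (by linarith)
    have h2 : ((m : ℤ) + 3) * F ≤ (m + 3) * (2 * n - 5) :=
      mul_le_mul_of_nonneg_left (by linarith) (by linarith)
    have h3 : (n + 4 - 3 * (m : ℤ)) * (2 * n - 8) ≥ 0 :=
      mul_nonneg (by linarith) (by linarith)
    nlinarith [mul_nonneg (by linarith : (0:ℤ) ≤ n - 16) (by linarith : (0:ℤ) ≤ n - 5)]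
  -- Step C
  have hk6 : ∀ v ∈ V, 2 ≤ deg L I v ∧ deg L I v ≤ 6 := by
    intro v hv
    have := h.two v hv
    have := hA v hv
    omega
  have s0 := sum_cls (Finset.Subset.refl V) hk6 (fun _ => 1)
  have s1 := sum_cls (Finset.Subset.refl V) hk6 (fun k => k)
  have s2 := sum_cls (Finset.Subset.refl V) hk6 (fun k => k * k - k)
  rw [← Finset.card_eq_sum_ones] at s0
  rw [hpairs] at s2
  have z6 : 3 * 6 > L.card + 4 → (cls L V I 6).card = 0 := by
    intro hgt
    rw [Finset.card_eq_zero, cls, Finset.filter_eq_empty_iff]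
    intro v hv hd
    have := hA v hv
    omega
  have z5 : 3 * 5 > L.card + 4 → (cls L V I 5).card = 0 := by
    intro hgt
    rw [Finset.card_eq_zero, cls, Finset.filter_eq_empty_iff]
    intro v hv hd
    have := hA v hv
    omega
  -- line counts
  have line : ∀ a ∈ L, on (cls L V I 2) I a + 2 * on (cls L V I 3) I a +
      3 * on (cls L V I 4) I a + 4 * on (cls L V I 5) I a + 5 * on (cls L V I 6) I a =
      L.card - 1 := by
    intro a ha
    have h1 := sum_cls (Finset.filter_subset (fun v => I v a) V) hk6 (fun k => k - 1)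
    rw [h.line ha] at h1
    rw [on_cls, on_cls, on_cls, on_cls, on_cls]
    omega
  have sub : ∀ j, cls L V I j ⊆ V := fun j => Finset.filter_subset _ _
  have q4 := h.sq (sub 4)
  have q5 := h.sq (sub 5)
  have q45 := h.mul (sub 4) (sub 5) (by
    rw [Finset.disjoint_left]
    intro v hv hv'
    have h1 := (Finset.mem_filter.1 hv).2
    have h2 := (Finset.mem_filter.1 hv').2
    omega)
  have o4 := sum_on_cls (L := L) (V := V) (I := I) 4
  have o5 := sum_on_cls (L := L) (V := V) (I := I) 5
  change V.card = 1 * (cls L V I 2).card + 1 * (cls L V I 3).card + 1 * (cls L V I 4).card +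
    1 * (cls L V I 5).card + 1 * (cls L V I 6).card at s0
  change ∑ v ∈ V, deg L I v = 2 * (cls L V I 2).card + 3 * (cls L V I 3).card +
    4 * (cls L V I 4).card + 5 * (cls L V I 5).card + 6 * (cls L V I 6).card at s1
  change L.card * L.card - L.card = 2 * (cls L V I 2).card + 6 * (cls L V I 3).card +
    12 * (cls L V I 4).card + 20 * (cls L V I 5).card + 30 * (cls L V I 6).card at s2
  rw [s1, s0] at hM
  rw [s0] at hlt
  clear s0 s1 hconv hexp hsq hM' hVn hm1' hpairs hm1 hm2
  -- the three line inequalities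
  have i12 : L.card = 12 → 5 * (cls L V I 5).card ≤ 24 := by
    intro h12
    rw [← o5]
    calc ∑ a ∈ L, on (cls L V I 5) I a ≤ ∑ a ∈ L, 2 := by
          apply Finset.sum_le_sum
          intro a ha
          have := line a ha
          omega
      _ = 24 := by rw [Finset.sum_const, h12]; rfl
  have i10 : 16 * (cls L V I 4).card ≤
      ((cls L V I 4).card * (cls L V I 4).card - (cls L V I 4).card) + 6 * L.card := by
    refine le_trans ?_ (Nat.add_le_add_right q4 _)
    have e : 6 * L.card = ∑ a ∈ L, 6 := by rw [Finset.sum_const, smul_eq_mul, mul_comm]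
    have e2 : 16 * (cls L V I 4).card = ∑ a ∈ L, 4 * on (cls L V I 4) I a := by
      rw [← Finset.mul_sum, o4]; ring
    rw [e, e2, ← Finset.sum_add_distrib]
    apply Finset.sum_le_sum
    intro a _
    generalize on (cls L V I 4) I a = x
    rcases Nat.lt_or_ge x 6 with hx | hx
    · interval_cases x <;> norm_num
    · have : 5 * x ≤ x * x - x := by
        have h1 : 6 * x ≤ x * x := Nat.mul_le_mul_right x hx
        omega
      omega
  have i11 : 10 * (cls L V I 5).card ≤
      ((cls L V I 5).card * (cls L V I 5).card - (cls L V I 5).card) + 2 * L.card := by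
    refine le_trans ?_ (Nat.add_le_add_right q5 _)
    have e : 2 * L.card = ∑ a ∈ L, 2 := by rw [Finset.sum_const, smul_eq_mul, mul_comm]
    have e2 : 10 * (cls L V I 5).card = ∑ a ∈ L, 2 * on (cls L V I 5) I a := by
      rw [← Finset.mul_sum, o5]; ring
    rw [e, e2, ← Finset.sum_add_distrib]
    apply Finset.sum_le_sum
    intro a _
    generalize on (cls L V I 5) I a = x
    rcases Nat.lt_or_ge x 6 with hx | hx
    · interval_cases x <;> norm_num
    · have : 5 * x ≤ x * x - x := by
        have h1 : 6 * x ≤ x * x := Nat.mul_le_mul_right x hx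
        omega
      omega
  have i11' : L.card = 11 → 8 * (cls L V I 4).card + 30 * (cls L V I 5).card ≤
      2 * ((cls L V I 4).card * (cls L V I 5).card) + 66 +
        3 * ((cls L V I 5).card * (cls L V I 5).card - (cls L V I 5).card) := by
    intro h11
    have e1 : 8 * (cls L V I 4).card + 30 * (cls L V I 5).card =
        ∑ a ∈ L, (2 * on (cls L V I 4) I a + 6 * on (cls L V I 5) I a) := by
      rw [Finset.sum_add_distrib, ← Finset.mul_sum, ← Finset.mul_sum, o4, o5]; ring
    have e2 : ∑ a ∈ L, (2 * (on (cls L V I 4) I a * on (cls L V I 5) I a) + 6 +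
        3 * (on (cls L V I 5) I a * on (cls L V I 5) I a - on (cls L V I 5) I a)) ≤
        2 * ((cls L V I 4).card * (cls L V I 5).card) + 66 +
        3 * ((cls L V I 5).card * (cls L V I 5).card - (cls L V I 5).card) := by
      rw [Finset.sum_add_distrib, Finset.sum_add_distrib, ← Finset.mul_sum, ← Finset.mul_sum,
        Finset.sum_const, h11]
      have e3 : 11 • 6 = 66 := rfl
      rw [e3]
      omega
    rw [e1]
    refine le_trans ?_ e2
    apply Finset.sum_le_sum
    intro a ha
    have hl := line a ha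
    rw [h11] at hl
    generalize on (cls L V I 4) I a = x at *
    generalize on (cls L V I 5) I a = y at *
    have hy : y ≤ 2 := by omega
    have hx : x ≤ 3 := by omega
    interval_cases y <;> interval_cases x <;> omega
  clear line q4 q5 q45 o4 o5 sub hk6 hA
  generalize (cls L V I 2).card = t2 at *
  generalize (cls L V I 3).card = t3 at *
  generalize (cls L V I 4).card = t4 at *
  generalize (cls L V I 5).card = t5 at *
  generalize (cls L V I 6).card = t6 at *
  clear hk h
  generalize L.card = n at *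
  interval_cases n
  · -- n = 10
    have h5 := z5 (by norm_num)
    have h6 := z6 (by norm_num)
    subst h5 h6
    have : t4 ≤ 7 := by omega
    interval_cases t4 <;> omega
  · -- n = 11
    have h6 := z6 (by norm_num)
    subst h6
    have i11'' := i11' rfl
    have : t5 ≤ 4 := by omega
    interval_cases t5 <;> omega
  · -- n = 12
    have h6 := z6 (by norm_num)
    have := i12 rfl
    omega
  · have h6 := z6 (by norm_num)
    omega
  · omega
  · omega

end Pool.Agent.Lib.MP_3f465e_co
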