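import Pool.Agent.Lib.MP_3f465e_co.Regions

namespace Pool.Agent.Lib.MP_3f465e_co

open Finset Module

set_option linter.unusedSectionVars false

variable {W : Type*} [AddCommGroup W] [Module ℝ W] {ι : Type*} [DecidableEq ι]

variable {f : ι → W →ₗ[ℝ] ℝ} {U : Submodule ℝ W} {s P : Finset ι}

/-- A nonzero functional cuts the dimension by one. -/
lemma finrank_inf_ker [FiniteDimensional ℝ W] (U : Submodule ℝ W) (g : W →ₗ[ℝ] ℝ)
    (h : ∃ u ∈ U, g u ≠ 0) : finrank ℝ (U ⊓ LinearMap.ker g : Submodule ℝ W) + 1 = finrank ℝ U := by
  set g' : U →ₗ[ℝ] ℝ := g.domRestrict U with hg'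
  have h1 := LinearMap.finrank_range_add_finrank_ker g'
  have h2 : LinearMap.range g' = ⊤ := by
    rw [LinearMap.range_eq_top]
    obtain ⟨u, hu, hgu⟩ := h
    intro c
    refine ⟨(c / g u) • ⟨u, hu⟩, ?_⟩
    rw [map_smul]
    change (c / g u) * g u = c
    field_simp
  have h3 : finrank ℝ (LinearMap.ker g') = finrank ℝ (U ⊓ LinearMap.ker g : Submodule ℝ W) := by
    have e : (LinearMap.ker g').map U.subtype = U ⊓ LinearMap.ker g := by
      rw [hg', LinearMap.ker_domRestrict, Submodule.map_comap_subtype]
    rw [← e]
    exact (Submodule.equivMapOfInjective U.subtype U.injective_subtype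
      (LinearMap.ker g')).finrank_eq
  rw [h2, finrank_top, finrank_self, h3] at h1
  omega

lemma Reg_empty_of_vanish {i : ι} (hi : i ∈ s) (h : U ≤ LinearMap.ker (f i)) :
    Reg f U s = ∅ := by
  rw [Finset.eq_empty_iff_forall_notMem]
  intro P hP
  obtain ⟨-, x, hx, hpat⟩ := mem_Reg.1 hP
  exact hpat.ne_zero hi (h hx)

/-- One-dimensional case. -/
lemma card_Reg_one {w : W} (hw : w ∈ U) (hU : ∀ x ∈ U, ∃ c : ℝ, x = c • w) (hs : s.Nonempty)
    (hf : ∀ i ∈ s, f i w ≠ 0) : (Reg f U s).card = 2 := by
  classical
  set P1 := s.filter (fun i => 0 < f i w) with hP1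
  set P2 := s.filter (fun i => f i w < 0) with hP2
  have hne : P1 ≠ P2 := by
    obtain ⟨i, hi⟩ := hs
    intro h
    rcases lt_or_gt_of_ne (hf i hi) with h1 | h1
    · have : i ∈ P2 := by simp [hP2, hi, h1]
      rw [← h] at this
      simp only [hP1, Finset.mem_filter] at this
      linarith [this.2]
    · have : i ∈ P1 := by simp [hP1, hi, h1]
      rw [h] at this
      simp only [hP2, Finset.mem_filter] at this
      linarith [this.2]
  have hreg : Reg f U s = {P1, P2} := by
    ext P
    rw [mem_Reg, Finset.mem_insert, Finset.mem_singleton]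
    constructor
    · rintro ⟨hP, x, hx, hpat⟩
      obtain ⟨c, rfl⟩ := hU x hx
      have hc : c ≠ 0 := by
        rintro rfl
        obtain ⟨i, hi⟩ := hs
        exact hpat.ne_zero hi (by simp)
      rcases lt_or_gt_of_ne hc with h | h
      · right
        ext i
        simp only [hP2, Finset.mem_filter]
        constructor
        · intro hi
          refine ⟨hP hi, ?_⟩
          have := (hpat i (hP hi)).1 hi
          rw [map_smul, smul_eq_mul] at this
          by_contra hcon
          push Not at hcon
          have := mul_nonpos_of_nonpos_of_nonneg h.le hcon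
          linarith
        · rintro ⟨hi, hneg⟩
          by_contra hcon
          have := (hpat i hi).2 hcon
          rw [map_smul, smul_eq_mul] at this
          have := mul_pos_of_neg_of_neg h hneg
          linarith
      · left
        ext i
        simp only [hP1, Finset.mem_filter]
        constructor
        · intro hi
          refine ⟨hP hi, ?_⟩
          have := (hpat i (hP hi)).1 hi
          rw [map_smul, smul_eq_mul] at this
          by_contra hcon
          push Not at hcon
          have := mul_nonpos_of_nonneg_of_nonpos h.le hcon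
          linarith
        · rintro ⟨hi, hpos⟩
          by_contra hcon
          have := (hpat i hi).2 hcon
          rw [map_smul, smul_eq_mul] at this
          have := mul_pos h hpos
          linarith
    · rintro (rfl | rfl)
      · refine ⟨Finset.filter_subset _ _, w, hw, ?_⟩
        intro i hi
        simp only [hP1, Finset.mem_filter, hi, true_and]
        refine ⟨fun h => h, fun h => lt_of_le_of_ne (not_lt.1 h) (hf i hi)⟩
      · refine ⟨Finset.filter_subset _ _, (-1 : ℝ) • w, U.smul_mem _ hw, ?_⟩
        intro i hi
        simp only [hP2, Finset.mem_filter, hi, true_and, map_smul, smul_eq_mul]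
        refine ⟨fun h => by linarith, fun h => ?_⟩
        have := lt_of_le_of_ne (not_lt.1 h) (Ne.symm (hf i hi))
        linarith
  rw [hreg, Finset.card_pair hne]

/-- A one-dimensional subspace is spanned by any nonzero vector. -/
lemma exists_gen [FiniteDimensional ℝ W] (h : finrank ℝ U = 1) :
    ∃ w ∈ U, w ≠ 0 ∧ ∀ x ∈ U, ∃ c : ℝ, x = c • w := by
  obtain ⟨⟨w, hw⟩, hw0, hall⟩ := finrank_eq_one_iff'.1 h
  refine ⟨w, hw, fun h => hw0 (Subtype.ext h), fun x hx => ?_⟩
  obtain ⟨c, hc⟩ := hall ⟨x, hx⟩
  exact ⟨c, (congrArg Subtype.val hc).symm⟩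

open Classical in
/-- Two-dimensional case: twice the number of different lines. -/
theorem card_Reg_two [FiniteDimensional ℝ W] (hU : finrank ℝ U = 2) (hs : s.Nonempty)
    (hf : ∀ i ∈ s, ∃ u ∈ U, f i u ≠ 0) :
    (Reg f U s).card = 2 * (s.image (fun i => U ⊓ LinearMap.ker (f i))).card := by
  classical
  induction hs using Finset.Nonempty.cons_induction with
  | singleton j =>
    obtain ⟨u, hu, huj⟩ := hf j (Finset.mem_singleton_self j)
    have h1 : ({j} : Finset ι) = insert j ∅ := rfl
    rw [h1, card_Reg_insert (Finset.notMem_empty j) hu huj]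
    have h2 : ∀ U : Submodule ℝ W, (Reg f U ∅).card = 1 := by
      intro U
      have : Reg f U ∅ = {∅} := by
        ext P
        rw [mem_Reg, Finset.mem_singleton, Finset.subset_empty]
        constructor
        · exact fun h => h.1
        · rintro rfl
          exact ⟨rfl, 0, U.zero_mem, fun i hi => absurd hi (Finset.notMem_empty i)⟩
      rw [this, Finset.card_singleton]
    rw [h2, h2]
    simp
  | cons j s hj hs ih =>
    rw [Finset.cons_eq_insert]
    rw [Finset.cons_eq_insert] at hf
    obtain ⟨u, hu, huj⟩ := hf j (Finset.mem_insert_self j s)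
    have ih' := ih (fun i hi => hf i (Finset.mem_insert_of_mem hi))
    rw [card_Reg_insert hj hu huj, ih', Finset.image_insert]
    have hdim : finrank ℝ (U ⊓ LinearMap.ker (f j) : Submodule ℝ W) = 1 := by
      have := finrank_inf_ker U (f j) ⟨u, hu, huj⟩
      omega
    by_cases hmem : U ⊓ LinearMap.ker (f j) ∈ s.image (fun i => U ⊓ LinearMap.ker (f i))
    · rw [Finset.insert_eq_of_mem hmem]
      obtain ⟨i, hi, hij⟩ := Finset.mem_image.1 hmem
      rw [Reg_empty_of_vanish hi (by rw [← hij]; exact inf_le_right), Finset.card_empty, add_zero]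
    · rw [Finset.card_insert_of_notMem hmem]
      obtain ⟨w, hw, hw0, hgen⟩ := exists_gen hdim
      have hcard : (Reg f (U ⊓ LinearMap.ker (f j)) s).card = 2 := by
        apply card_Reg_one hw hgen hs
        intro i hi hiw
        apply hmem
        rw [Finset.mem_image]
        refine ⟨i, hi, ?_⟩
        obtain ⟨u', hu', hui'⟩ := hf i (Finset.mem_insert_of_mem hi)
        have hdim' : finrank ℝ (U ⊓ LinearMap.ker (f i) : Submodule ℝ W) = 1 := by
          have := finrank_inf_ker U (f i) ⟨u', hu', hui'⟩
          omega
        symm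
        apply Submodule.eq_of_le_of_finrank_eq
        · intro x hx
          obtain ⟨c, rfl⟩ := hgen x hx
          refine ⟨U.smul_mem _ hw.1, ?_⟩
          change f i (c • w) = 0
          rw [map_smul, hiw, smul_zero]
        · rw [hdim, hdim']
      rw [hcard]
      ring

end Pool.Agent.Lib.MP_3f465e_co
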