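import Mathlib

/-!
Counting in the incidence structure of lines and vertices.
-/

namespace Pool.Agent.Lib.MP_3f465e_co

open Finset Classical

variable {ι β : Type*}

/-- The number of lines of `L` through `v`. -/
noncomputable def deg (L : Finset ι) (I : β → ι → Prop) (v : β) : ℕ := (L.filter (I v)).card

/-- The number of points of `X` on the line `a`. -/
noncomputable def on (X : Finset β) (I : β → ι → Prop) (a : ι) : ℕ :=
  (X.filter (fun v => I v a)).card

/-- The incidence axioms: two lines meet in exactly one vertex, each vertex is on two lines. -/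
structure Inc (L : Finset ι) (V : Finset β) (I : β → ι → Prop) : Prop where
  meet : ∀ a ∈ L, ∀ b ∈ L, a ≠ b → ∃ v ∈ V, I v a ∧ I v b
  uniq : ∀ v ∈ V, ∀ w ∈ V, v ≠ w → ∀ a ∈ L, ∀ b ∈ L, I v a → I v b → I w a → I w b → a = b
  two : ∀ v ∈ V, 2 ≤ deg L I v

variable {L : Finset ι} {V X Y : Finset β} {I : β → ι → Prop}

lemma sum_on (X : Finset β) : ∑ a ∈ L, on X I a = ∑ v ∈ X, deg L I v := by
  unfold on deg
  simp only [Finset.card_filter]
  exact Finset.sum_comm

/-- Pairs of different lines. -/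
lemma Inc.pairs (h : Inc L V I) :
    ∑ v ∈ V, (deg L I v * deg L I v - deg L I v) = L.card * L.card - L.card := by
  have h1 : L.offDiag = V.biUnion (fun v => (L.filter (I v)).offDiag) := by
    ext ⟨a, b⟩
    simp only [Finset.mem_offDiag, Finset.mem_biUnion, Finset.mem_filter]
    constructor
    · rintro ⟨ha, hb, hab⟩
      obtain ⟨v, hv, h1, h2⟩ := h.meet a ha b hb hab
      exact ⟨v, hv, ⟨ha, h1⟩, ⟨hb, h2⟩, hab⟩
    · rintro ⟨v, hv, ⟨ha, -⟩, ⟨hb, -⟩, hab⟩
      exact ⟨ha, hb, hab⟩
  have h2 := Finset.card_biUnion (s := V) (t := fun v => (L.filter (I v)).offDiag) (by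
    intro v hv w hw hvw
    rw [Function.onFun, Finset.disjoint_left]
    rintro ⟨a, b⟩ hab hab'
    simp only [Finset.mem_offDiag, Finset.mem_filter] at hab hab'
    exact hab.2.2 (h.uniq v hv w hw hvw a hab.1.1 b hab.2.1.1 hab.1.2 hab.2.1.2 hab'.1.2
      hab'.2.1.2))
  rw [← h1, Finset.offDiag_card] at h2
  rw [h2]
  apply Finset.sum_congr rfl
  intro v _
  rw [Finset.offDiag_card]
  rfl

/-- The points on a line. -/
lemma Inc.line (h : Inc L V I) {a : ι} (ha : a ∈ L) :
    ∑ v ∈ V.filter (fun v => I v a), (deg L I v - 1) = L.card - 1 := by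
  have h1 : L.erase a = (V.filter (fun v => I v a)).biUnion (fun v => (L.filter (I v)).erase a) := by
    ext b
    simp only [Finset.mem_erase, Finset.mem_biUnion, Finset.mem_filter]
    constructor
    · rintro ⟨hba, hb⟩
      obtain ⟨v, hv, h1, h2⟩ := h.meet a ha b hb hba.symm
      exact ⟨v, ⟨hv, h1⟩, hba, hb, h2⟩
    · rintro ⟨v, -, hba, hb, -⟩
      exact ⟨hba, hb⟩
  have h2 := Finset.card_biUnion (s := V.filter (fun v => I v a))
    (t := fun v => (L.filter (I v)).erase a) (by
    intro v hv w hw hvw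
    rw [Finset.mem_coe, Finset.mem_filter] at hv hw
    rw [Function.onFun, Finset.disjoint_left]
    intro b hb hb'
    simp only [Finset.mem_erase, Finset.mem_filter] at hb hb'
    exact hb.1 (h.uniq v hv.1 w hw.1 hvw b hb.2.1 a ha hb.2.2 hv.2 hb'.2.2 hw.2))
  rw [← h1, Finset.card_erase_of_mem ha] at h2
  rw [h2]
  apply Finset.sum_congr rfl
  intro v hv
  rw [Finset.mem_filter] at hv
  rw [Finset.card_erase_of_mem (Finset.mem_filter.2 ⟨ha, hv.2⟩)]
  rfl

/-- Two disjoint sets of vertices. -/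
lemma Inc.mul (h : Inc L V I) (hX : X ⊆ V) (hY : Y ⊆ V) (hXY : Disjoint X Y) :
    ∑ a ∈ L, on X I a * on Y I a ≤ X.card * Y.card := by
  have h1 : ∀ a ∈ L, on X I a * on Y I a =
      ∑ p ∈ X ×ˢ Y, if I p.1 a ∧ I p.2 a then 1 else 0 := by
    intro a _
    unfold on
    rw [← Finset.card_product, ← Finset.card_filter]
    congr 1
    ext ⟨x, y⟩
    simp only [Finset.mem_product, Finset.mem_filter]
    tauto
  rw [Finset.sum_congr rfl h1, Finset.sum_comm, ← Finset.card_product, Finset.card_eq_sum_ones]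
  apply Finset.sum_le_sum
  rintro ⟨x, y⟩ hp
  rw [Finset.mem_product] at hp
  rw [← Finset.card_filter, Finset.card_le_one]
  intro a ha b hb
  simp only [Finset.mem_filter] at ha hb
  have hne : x ≠ y := fun hxy => (Finset.disjoint_left.1 hXY) hp.1 (hxy ▸ hp.2)
  exact h.uniq x (hX hp.1) y (hY hp.2) hne a ha.1 b hb.1 ha.2.1 hb.2.1 ha.2.2 hb.2.2

/-- Pairs in one set of vertices. -/
lemma Inc.sq (h : Inc L V I) (hX : X ⊆ V) :
    ∑ a ∈ L, (on X I a * on X I a - on X I a) ≤ X.card * X.card - X.card := by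
  have h1 : ∀ a ∈ L, on X I a * on X I a - on X I a =
      ∑ p ∈ X.offDiag, if I p.1 a ∧ I p.2 a then 1 else 0 := by
    intro a _
    unfold on
    rw [← Finset.offDiag_card, ← Finset.card_filter]
    congr 1
    ext ⟨x, y⟩
    simp only [Finset.mem_offDiag, Finset.mem_filter]
    tauto
  rw [Finset.sum_congr rfl h1, Finset.sum_comm, ← Finset.offDiag_card, Finset.card_eq_sum_ones]
  apply Finset.sum_le_sum
  rintro ⟨x, y⟩ hp
  rw [Finset.mem_offDiag] at hp
  rw [← Finset.card_filter, Finset.card_le_one]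
  intro a ha b hb
  simp only [Finset.mem_filter] at ha hb
  exact h.uniq x (hX hp.1) y (hX hp.2.1) hp.2.2 a ha.1 b hb.1 ha.2.1 hb.2.1 ha.2.2 hb.2.2

/-- The pencil bound: a vertex on `m` lines gives many vertices. -/
lemma Inc.pencil (h : Inc L V I) {p : β} (hp : p ∈ V) :
    (2 : ℤ) + 2 * deg L I p * (L.card - deg L I p) -
      (L.card - deg L I p) * ((L.card - deg L I p) - 1) ≤ 2 * V.card := by
  set M := L.filter (I p) with hM
  set H := L.filter (fun a => ¬ I p a) with hH
  have hMH : M.card + H.card = L.card := Finset.card_filter_add_card_filter_not _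
  set V1 := V.filter (fun v => v ≠ p ∧ ∃ l ∈ M, I v l) with hV1
  have hV1V : V1 ⊆ V := Finset.filter_subset _ _
  have hpV1 : p ∉ V1 := by simp [hV1]
  have hcard : V1.card + 1 ≤ V.card := by
    have : insert p V1 ⊆ V := by
      intro v hv
      rcases Finset.mem_insert.1 hv with rfl | hv
      · exact hp
      · exact hV1V hv
    have := Finset.card_le_card this
    rwa [Finset.card_insert_of_notMem hpV1] at this
  -- first count
  have hM1 : ∀ v ∈ V1, (M.filter (I v)).card = 1 := by
    intro v hv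
    rw [hV1, Finset.mem_filter] at hv
    obtain ⟨hvV, hvp, l, hl, hvl⟩ := hv
    rw [Finset.card_eq_one]
    refine ⟨l, ?_⟩
    ext a
    rw [Finset.mem_filter, Finset.mem_singleton]
    constructor
    · rintro ⟨ha, hva⟩
      rw [hM, Finset.mem_filter] at ha hl
      exact h.uniq v hvV p hp hvp a ha.1 l hl.1 hva hvl ha.2 hl.2
    · rintro rfl
      exact ⟨hl, hvl⟩
  have hc1 : M.card * H.card = ∑ v ∈ V1, (H.filter (I v)).card := by
    have e1 : M ×ˢ H = V1.biUnion (fun v => (M.filter (I v)) ×ˢ (H.filter (I v))) := by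
      ext ⟨a, b⟩
      simp only [Finset.mem_product, Finset.mem_biUnion, Finset.mem_filter]
      constructor
      · rintro ⟨ha, hb⟩
        have ha' := ha
        have hb' := hb
        rw [hM, Finset.mem_filter] at ha'
        rw [hH, Finset.mem_filter] at hb'
        have hab : a ≠ b := fun hab => hb'.2 (hab ▸ ha'.2)
        obtain ⟨v, hv, h1, h2⟩ := h.meet a ha'.1 b hb'.1 hab
        refine ⟨v, ?_, ⟨ha, h1⟩, hb, h2⟩
        rw [hV1, Finset.mem_filter]
        exact ⟨hv, fun hvp => hb'.2 (hvp ▸ h2), a, ha, h1⟩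
      · rintro ⟨v, -, ⟨ha, -⟩, hb, -⟩
        exact ⟨ha, hb⟩
    rw [← Finset.card_product, e1, Finset.card_biUnion]
    · apply Finset.sum_congr rfl
      intro v hv
      rw [Finset.card_product, hM1 v hv, one_mul]
    · intro v hv w hw hvw
      rw [Function.onFun, Finset.disjoint_left]
      rintro ⟨a, b⟩ hab hab'
      simp only [Finset.mem_product, Finset.mem_filter] at hab hab'
      have ha' := hab.1.1
      have hb' := hab.2.1
      rw [hM, Finset.mem_filter] at ha'
      rw [hH, Finset.mem_filter] at hb'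
      have := h.uniq v (hV1V hv) w (hV1V hw) hvw a ha'.1 b hb'.1 hab.1.2 hab.2.2 hab'.1.2 hab'.2.2
      exact hb'.2 (this ▸ ha'.2)
  -- second count
  have hc2 : ∑ v ∈ V1, ((H.filter (I v)).card * (H.filter (I v)).card - (H.filter (I v)).card) ≤
      H.card * H.card - H.card := by
    have e1 : V1.biUnion (fun v => (H.filter (I v)).offDiag) ⊆ H.offDiag := by
      intro q hq
      simp only [Finset.mem_biUnion, Finset.mem_offDiag, Finset.mem_filter] at hq ⊢
      obtain ⟨v, -, ⟨h1, -⟩, ⟨h2, -⟩, h3⟩ := hq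
      exact ⟨h1, h2, h3⟩
    have e2 := Finset.card_le_card e1
    rw [Finset.card_biUnion, Finset.offDiag_card] at e2
    · refine le_trans (le_of_eq ?_) e2
      apply Finset.sum_congr rfl
      intro v _
      rw [Finset.offDiag_card]
    · intro v hv w hw hvw
      rw [Function.onFun, Finset.disjoint_left]
      rintro ⟨a, b⟩ hab hab'
      simp only [Finset.mem_offDiag, Finset.mem_filter] at hab hab'
      have ha' := hab.1.1
      have hb' := hab.2.1.1
      rw [hH, Finset.mem_filter] at ha' hb'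
      exact hab.2.2 (h.uniq v (hV1V hv) w (hV1V hw) hvw a ha'.1 b hb'.1 hab.1.2 hab.2.1.2
        hab'.1.2 hab'.2.1.2)
  -- combine
  have hpt : ∀ j : ℕ, 2 * (j : ℤ) ≤ 2 + ((j * j - j : ℕ) : ℤ) := by
    intro j
    have hj : j ≤ j * j := Nat.le_mul_self j
    rw [Nat.cast_sub hj, Nat.cast_mul]
    rcases Nat.lt_or_ge j 2 with h2 | h2
    · interval_cases j <;> norm_num
    · have h2' : (2 : ℤ) ≤ j := by exact_mod_cast h2
      nlinarith
  have hsum : 2 * ((M.card * H.card : ℕ) : ℤ) ≤ 2 * V1.card + ((H.card * H.card - H.card : ℕ) : ℤ) := by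
    rw [hc1]
    calc 2 * ((∑ v ∈ V1, (H.filter (I v)).card : ℕ) : ℤ)
        = ∑ v ∈ V1, 2 * ((H.filter (I v)).card : ℤ) := by push_cast; rw [Finset.mul_sum]
      _ ≤ ∑ v ∈ V1, (2 + (((H.filter (I v)).card * (H.filter (I v)).card -
            (H.filter (I v)).card : ℕ) : ℤ)) := Finset.sum_le_sum (fun v _ => hpt _)
      _ = 2 * V1.card + ((∑ v ∈ V1, ((H.filter (I v)).card * (H.filter (I v)).card -
            (H.filter (I v)).card) : ℕ) : ℤ) := by
          rw [Finset.sum_add_distrib, Finset.sum_const]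
          push_cast
          ring
      _ ≤ _ := by
          have := (Nat.cast_le (α := ℤ)).2 hc2
          linarith
  have hle : H.card ≤ H.card * H.card := Nat.le_mul_self _
  rw [Nat.cast_sub hle] at hsum
  push_cast at hsum
  have hd : (deg L I p : ℤ) = M.card := rfl
  have hH' : (L.card : ℤ) - M.card = H.card := by
    have : (M.card : ℤ) + H.card = L.card := by exact_mod_cast hMH
    linarith
  rw [hd, hH']
  have hcard' : (V1.card : ℤ) + 1 ≤ V.card := by exact_mod_cast hcard
  nlinarith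

end Pool.Agent.Lib.MP_3f465e_co
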