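import Pool.Agent.Lib.MP_3f465e_co.Walls

/-!
Melchior's inequality for real projective line arrangements.
-/

namespace Pool.Agent.Lib.MP_3f465e_co

open Finset Module

set_option linter.unusedSectionVars false

variable {W : Type*} [AddCommGroup W] [Module ℝ W] {ι : Type*} [DecidableEq ι]

variable {f : ι → W →ₗ[ℝ] ℝ} {U : Submodule ℝ W} {s P : Finset ι} {A : Finset ι}

/-- An arrangement of lines in the projective plane of a three-dimensional space, given by
functionals; not all lines pass through one point. -/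
structure Arr (f : ι → W →ₗ[ℝ] ℝ) (A : Finset ι) : Prop where
  dim : finrank ℝ W = 3
  nz : ∀ i ∈ A, f i ≠ 0
  inj : ∀ i ∈ A, ∀ j ∈ A, i ≠ j → LinearMap.ker (f i) ≠ LinearMap.ker (f j)
  span : ∀ u : W, (∀ i ∈ A, f i u = 0) → u = 0

open Classical in
/-- The vertices, as one-dimensional subspaces. -/
noncomputable def Vtx (f : ι → W →ₗ[ℝ] ℝ) (A : Finset ι) : Finset (Submodule ℝ W) :=
  A.offDiag.image (fun p => LinearMap.ker (f p.1) ⊓ LinearMap.ker (f p.2))

open Classical in
/-- The multiplicity of a point. -/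
noncomputable def mult (f : ι → W →ₗ[ℝ] ℝ) (s : Finset ι) (v : Submodule ℝ W) : ℕ :=
  (s.filter (fun i => v ≤ LinearMap.ker (f i))).card

lemma mem_Vtx {v : Submodule ℝ W} : v ∈ Vtx f A ↔
    ∃ i ∈ A, ∃ j ∈ A, i ≠ j ∧ LinearMap.ker (f i) ⊓ LinearMap.ker (f j) = v := by
  simp only [Vtx, Finset.mem_image, Finset.mem_offDiag, Prod.exists]
  constructor
  · rintro ⟨i, j, ⟨hi, hj, hij⟩, h⟩
    exact ⟨i, hi, j, hj, hij, h⟩
  · rintro ⟨i, hi, j, hj, hij, h⟩
    exact ⟨i, j, ⟨hi, hj, hij⟩, h⟩

lemma Arr.finiteDimensional (h : Arr f A) : FiniteDimensional ℝ W :=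
  FiniteDimensional.of_finrank_pos (by rw [h.dim]; norm_num)

lemma exists_apply_ne {g : W →ₗ[ℝ] ℝ} (h : g ≠ 0) : ∃ u : W, g u ≠ 0 := by
  by_contra hcon
  push Not at hcon
  exact h (LinearMap.ext hcon)

lemma Arr.finrank_ker (h : Arr f A) {i : ι} (hi : i ∈ A) :
    finrank ℝ (LinearMap.ker (f i)) = 2 := by
  have := h.finiteDimensional
  obtain ⟨u, hu⟩ := exists_apply_ne (h.nz i hi)
  have h1 := finrank_inf_ker (⊤ : Submodule ℝ W) (f i) ⟨u, Submodule.mem_top, hu⟩
  rw [top_inf_eq, finrank_top, h.dim] at h1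
  omega

lemma Arr.exists_point (h : Arr f A) {i j : ι} (hi : i ∈ A) (hj : j ∈ A) (hij : i ≠ j) :
    ∃ w : W, f j w = 0 ∧ f i w ≠ 0 := by
  have := h.finiteDimensional
  by_contra hcon
  push Not at hcon
  apply h.inj i hi j hj hij
  symm
  apply Submodule.eq_of_le_of_finrank_eq
  · intro w hw
    exact hcon w hw
  · rw [h.finrank_ker hi, h.finrank_ker hj]

lemma Arr.finrank_inf (h : Arr f A) {i j : ι} (hi : i ∈ A) (hj : j ∈ A) (hij : i ≠ j) :
    finrank ℝ (LinearMap.ker (f i) ⊓ LinearMap.ker (f j) : Submodule ℝ W) = 1 := by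
  have := h.finiteDimensional
  obtain ⟨w, hw1, hw2⟩ := h.exists_point hj hi hij.symm
  have h1 := finrank_inf_ker (LinearMap.ker (f i)) (f j) ⟨w, hw1, hw2⟩
  rw [h.finrank_ker hi] at h1
  omega

lemma Arr.finrank_vtx (h : Arr f A) {v : Submodule ℝ W} (hv : v ∈ Vtx f A) : finrank ℝ v = 1 := by
  obtain ⟨i, hi, j, hj, hij, rfl⟩ := mem_Vtx.1 hv
  exact h.finrank_inf hi hj hij

lemma Arr.eq_inf (h : Arr f A) {v : Submodule ℝ W} (hv : v ∈ Vtx f A) {i j : ι} (hi : i ∈ A)
    (hj : j ∈ A) (hij : i ≠ j) (h1 : v ≤ LinearMap.ker (f i)) (h2 : v ≤ LinearMap.ker (f j)) :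
    v = LinearMap.ker (f i) ⊓ LinearMap.ker (f j) := by
  have := h.finiteDimensional
  apply Submodule.eq_of_le_of_finrank_eq (le_inf h1 h2)
  rw [h.finrank_vtx hv, h.finrank_inf hi hj hij]

open Classical in
/-- The number of points cut on the line `j` by the lines of `s`. -/
lemma Arr.card_image (h : Arr f A) (hs : s ⊆ A) {j : ι} (hj : j ∈ A) (hjs : j ∉ s) :
    (s.image (fun i => LinearMap.ker (f j) ⊓ LinearMap.ker (f i))).card =
      ((Vtx f A).filter (fun v => v ≤ LinearMap.ker (f j) ∧ 1 ≤ mult f s v)).card := by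
  congr 1
  ext v
  simp only [Finset.mem_image, Finset.mem_filter]
  constructor
  · rintro ⟨i, hi, rfl⟩
    have hij : j ≠ i := fun h => hjs (h ▸ hi)
    refine ⟨mem_Vtx.2 ⟨j, hj, i, hs hi, hij, rfl⟩, inf_le_left, ?_⟩
    apply Finset.card_pos.2
    exact ⟨i, Finset.mem_filter.2 ⟨hi, inf_le_right⟩⟩
  · rintro ⟨hv, h1, h2⟩
    obtain ⟨i, hi⟩ := Finset.card_pos.1 h2
    rw [Finset.mem_filter] at hi
    exact ⟨i, hi.1, (h.eq_inf hv hj (hs hi.1) (fun h => hjs (h ▸ hi.1)) h1 hi.2).symm⟩

/-- The number of regions. -/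
theorem Arr.card_Reg (h : Arr f A) (hs : s.Nonempty) (hsA : s ⊆ A) :
    (Reg f ⊤ s).card = 2 + 2 * ∑ v ∈ Vtx f A, (mult f s v - 1) := by
  classical
  have hfd := h.finiteDimensional
  induction hs using Finset.Nonempty.cons_induction with
  | singleton j =>
    obtain ⟨u, hu⟩ := exists_apply_ne (h.nz j (hsA (Finset.mem_singleton_self j)))
    have h1 : ({j} : Finset ι) = insert j ∅ := rfl
    have hsum : ∑ v ∈ Vtx f A, (mult f {j} v - 1) = 0 := by
      apply Finset.sum_eq_zero
      intro v _
      have : mult f {j} v ≤ 1 := by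
        unfold mult
        exact (Finset.card_filter_le _ _).trans (by simp)
      omega
    rw [hsum, h1, card_Reg_insert (Finset.notMem_empty j) Submodule.mem_top hu]
    have h2 : ∀ U : Submodule ℝ W, (Reg f U ∅).card = 1 := by
      intro U
      have : Reg f U ∅ = {∅} := by
        ext P
        rw [mem_Reg, Finset.mem_singleton, Finset.subset_empty]
        constructor
        · exact fun h => h.1
        · rintro rfl
          exact ⟨rfl, 0, U.zero_mem, fun i hi => absurd hi (Finset.notMem_empty i)⟩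
      rw [this, Finset.card_singleton]
    rw [h2, h2]
  | cons j s hj hs ih =>
    rw [Finset.cons_eq_insert] at hsA ⊢
    have hjA : j ∈ A := hsA (Finset.mem_insert_self j s)
    have hsA' : s ⊆ A := (Finset.subset_insert j s).trans hsA
    obtain ⟨u, hu⟩ := exists_apply_ne (h.nz j hjA)
    rw [card_Reg_insert hj Submodule.mem_top hu, ih hsA', top_inf_eq]
    have h2 : (Reg f (LinearMap.ker (f j)) s).card =
        2 * (s.image (fun i => LinearMap.ker (f j) ⊓ LinearMap.ker (f i))).card := by
      apply card_Reg_two (h.finrank_ker hjA) hs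
      intro i hi
      obtain ⟨w, hw1, hw2⟩ := h.exists_point (hsA' hi) hjA (fun h => hj (h ▸ hi))
      exact ⟨w, hw1, hw2⟩
    rw [h2, h.card_image hsA' hjA hj]
    have hsum : ∑ v ∈ Vtx f A, (mult f (insert j s) v - 1) =
        ∑ v ∈ Vtx f A, (mult f s v - 1) +
          ((Vtx f A).filter (fun v => v ≤ LinearMap.ker (f j) ∧ 1 ≤ mult f s v)).card := by
      rw [Finset.card_filter, ← Finset.sum_add_distrib]
      apply Finset.sum_congr rfl
      intro v _
      have hm : mult f (insert j s) v = mult f s v + if v ≤ LinearMap.ker (f j) then 1 else 0 := by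
        unfold mult
        rw [Finset.filter_insert]
        split_ifs with hv
        · rw [Finset.card_insert_of_notMem]
          intro hmem
          exact hj (Finset.mem_filter.1 hmem).1
        · rfl
      rw [hm]
      by_cases hv : v ≤ LinearMap.ker (f j)
      · by_cases hk : 1 ≤ mult f s v
        · simp only [hv, hk, and_self, if_true]; omega
        · simp only [hv, hk, and_false, if_true, if_false]; omega
      · simp only [hv, false_and, if_false]; omega
    rw [hsum]
    ring

/-- Melchior's inequality. -/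
theorem melchior (h : Arr f A) (hA : 2 ≤ A.card) :
    ∑ v ∈ Vtx f A, mult f A v + 3 ≤ 3 * (Vtx f A).card := by
  classical
  have hfd := h.finiteDimensional
  have hAne : A.Nonempty := Finset.card_pos.1 (by omega)
  have hreg := h.card_Reg hAne (Finset.Subset.refl A)
  have hmult : ∀ v ∈ Vtx f A, 2 ≤ mult f A v := by
    intro v hv
    obtain ⟨i, hi, j, hj, hij, rfl⟩ := mem_Vtx.1 hv
    unfold mult
    rw [← Finset.card_pair hij]
    apply Finset.card_le_card
    intro l hl
    simp only [Finset.mem_insert, Finset.mem_singleton] at hl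
    rw [Finset.mem_filter]
    rcases hl with rfl | rfl
    · exact ⟨hi, inf_le_left⟩
    · exact ⟨hj, inf_le_right⟩
  have hsum1 : ∑ v ∈ Vtx f A, (mult f A v - 1) + (Vtx f A).card = ∑ v ∈ Vtx f A, mult f A v := by
    rw [Finset.card_eq_sum_ones, ← Finset.sum_add_distrib]
    apply Finset.sum_congr rfl
    intro v hv
    have := hmult v hv
    omega
  -- counting walls
  have hwalls : 3 * (Reg f ⊤ A).card ≤
      ∑ P ∈ Reg f ⊤ A, (A.filter (fun j => Wall f A P j)).card := by
    have : ∀ P ∈ Reg f ⊤ A, 3 ≤ (A.filter (fun j => Wall f A P j)).card := by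
      intro P hP
      obtain ⟨M, hMA, hM3, hM⟩ := card_walls
        (fun i hi j hj hij => h.exists_point hi hj hij) h.span hP
      rw [h.dim] at hM3
      refine hM3.trans (Finset.card_le_card ?_)
      intro j hj
      exact Finset.mem_filter.2 ⟨hMA hj, hM j hj⟩
    calc 3 * (Reg f ⊤ A).card = ∑ P ∈ Reg f ⊤ A, 3 := by
          rw [Finset.sum_const, smul_eq_mul, mul_comm]
      _ ≤ _ := Finset.sum_le_sum this
  have hswap : ∑ P ∈ Reg f ⊤ A, (A.filter (fun j => Wall f A P j)).card =
      ∑ j ∈ A, ((Reg f ⊤ A).filter (fun P => Wall f A P j)).card := by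
    simp only [Finset.card_filter]
    exact Finset.sum_comm
  have hline : ∀ j ∈ A, ((Reg f ⊤ A).filter (fun P => Wall f A P j)).card ≤
      4 * ((Vtx f A).filter (fun v => v ≤ LinearMap.ker (f j))).card := by
    intro j hj
    have h1 : ((Reg f ⊤ A).filter (fun P => Wall f A P j)).card ≤
        2 * (Reg f (LinearMap.ker (f j)) (A.erase j)).card := by
      apply Finset.card_le_mul_card_image_of_maps_to (f := fun P => P.erase j)
      · intro P hP
        rw [Finset.mem_filter] at hP
        exact mem_Reg.2 ⟨Finset.erase_subset_erase j (mem_Reg.1 hP.1).1, hP.2⟩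
      · intro Q hQ
        have hjQ : j ∉ Q := fun hj' => (Finset.notMem_erase j A) ((mem_Reg.1 hQ).1 hj')
        have hsub : ((Reg f ⊤ A).filter (fun P => Wall f A P j)).filter (fun P => P.erase j = Q) ⊆
            {Q, insert j Q} := by
          intro P hP
          rw [Finset.mem_filter] at hP
          rw [Finset.mem_insert, Finset.mem_singleton]
          by_cases hjP : j ∈ P
          · right
            rw [← hP.2, Finset.insert_erase hjP]
          · left
            rw [← hP.2, Finset.erase_eq_of_notMem hjP]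
        exact (Finset.card_le_card hsub).trans (Finset.card_le_two)
    have hne : (A.erase j).Nonempty := by
      rw [← Finset.card_pos, Finset.card_erase_of_mem hj]
      omega
    have h2 : (Reg f (LinearMap.ker (f j)) (A.erase j)).card =
        2 * ((A.erase j).image (fun i => LinearMap.ker (f j) ⊓ LinearMap.ker (f i))).card := by
      apply card_Reg_two (h.finrank_ker hj) hne
      intro i hi
      obtain ⟨w, hw1, hw2⟩ := h.exists_point (Finset.mem_of_mem_erase hi) hj
        (Finset.ne_of_mem_erase hi)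
      exact ⟨w, hw1, hw2⟩
    rw [h.card_image (Finset.erase_subset j A) hj (Finset.notMem_erase j A)] at h2
    have h3 : ((Vtx f A).filter
        (fun v => v ≤ LinearMap.ker (f j) ∧ 1 ≤ mult f (A.erase j) v)).card ≤
        ((Vtx f A).filter (fun v => v ≤ LinearMap.ker (f j))).card := by
      apply Finset.card_le_card
      intro v hv
      rw [Finset.mem_filter] at hv ⊢
      exact ⟨hv.1, hv.2.1⟩
    omega
  have hdouble : ∑ j ∈ A, ((Vtx f A).filter (fun v => v ≤ LinearMap.ker (f j))).card =
      ∑ v ∈ Vtx f A, mult f A v := by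
    unfold mult
    simp only [Finset.card_filter]
    exact Finset.sum_comm
  have htotal : 3 * (Reg f ⊤ A).card ≤ 4 * ∑ v ∈ Vtx f A, mult f A v := by
    calc 3 * (Reg f ⊤ A).card ≤ _ := hwalls
      _ = _ := hswap
      _ ≤ ∑ j ∈ A, 4 * ((Vtx f A).filter (fun v => v ≤ LinearMap.ker (f j))).card :=
        Finset.sum_le_sum hline
      _ = 4 * ∑ j ∈ A, ((Vtx f A).filter (fun v => v ≤ LinearMap.ker (f j))).card := by
        rw [Finset.mul_sum]
      _ = _ := by rw [hdouble]
  rw [hreg] at htotal
  omega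

end Pool.Agent.Lib.MP_3f465e_co
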