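import Mathlib

/-!
Counting regions of a finite arrangement of linear hyperplanes by sign vectors.
-/

namespace Pool.Agent.Lib.MP_3f465e_co

open Finset Filter Topology

set_option linter.unusedSectionVars false

variable {W : Type*} [AddCommGroup W] [Module ℝ W] {ι : Type*} [DecidableEq ι]

/-- The point `x` has the sign pattern `P` with respect to the functionals `f i`, `i ∈ s`. -/
def Pat (f : ι → W →ₗ[ℝ] ℝ) (s P : Finset ι) (x : W) : Prop :=
  ∀ i ∈ s, (i ∈ P → 0 < f i x) ∧ (i ∉ P → f i x < 0)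

/-- The sign pattern `P` is realized in the subspace `U`. -/
def Rz (f : ι → W →ₗ[ℝ] ℝ) (U : Submodule ℝ W) (s P : Finset ι) : Prop :=
  ∃ x ∈ U, Pat f s P x

open Classical in
/-- The realized sign patterns. -/
noncomputable def Reg (f : ι → W →ₗ[ℝ] ℝ) (U : Submodule ℝ W) (s : Finset ι) :
    Finset (Finset ι) :=
  s.powerset.filter (Rz f U s)

variable {f : ι → W →ₗ[ℝ] ℝ} {U : Submodule ℝ W} {s P : Finset ι}

lemma mem_Reg : P ∈ Reg f U s ↔ P ⊆ s ∧ Rz f U s P := by
  simp [Reg]

lemma Pat.ne_zero {x : W} (h : Pat f s P x) {i : ι} (hi : i ∈ s) : f i x ≠ 0 := by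
  by_cases hP : i ∈ P
  · exact ((h i hi).1 hP).ne'
  · exact ((h i hi).2 hP).ne

/-- Small perturbations keep the sign pattern. -/
lemma Pat.eventually {x : W} (h : Pat f s P x) (u : W) :
    ∀ᶠ t : ℝ in 𝓝 0, Pat f s P (x + t • u) := by
  unfold Pat
  rw [Finset.eventually_all]
  intro i hi
  have hc : Continuous fun t : ℝ => f i (x + t • u) := by
    simp only [map_add, map_smul, smul_eq_mul]
    fun_prop
  have h0 : f i (x + (0 : ℝ) • u) = f i x := by simp
  by_cases hP : i ∈ P
  · have h1 : ∀ᶠ t : ℝ in 𝓝 0, 0 < f i (x + t • u) := by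
      apply hc.continuousAt.eventually_const_lt
      change 0 < f i (x + (0 : ℝ) • u)
      rw [h0]; exact (h i hi).1 hP
    filter_upwards [h1] with t ht
    exact ⟨fun _ => ht, fun h => absurd hP h⟩
  · have h1 : ∀ᶠ t : ℝ in 𝓝 0, f i (x + t • u) < 0 := by
      apply hc.continuousAt.eventually_lt_const
      change f i (x + (0 : ℝ) • u) < 0
      rw [h0]; exact (h i hi).2 hP
    filter_upwards [h1] with t ht
    exact ⟨fun h => absurd h hP, fun _ => ht⟩

/-- There is a positive small perturbation keeping the sign pattern. -/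
lemma Pat.exists_pos {x : W} (h : Pat f s P x) (u : W) :
    ∃ t : ℝ, 0 < t ∧ Pat f s P (x + t • u) ∧ Pat f s P (x + (-t) • u) := by
  have h1 := h.eventually u
  have h2 : ∀ᶠ t : ℝ in 𝓝 0, Pat f s P (x + (-t) • u) := by
    have ht : Tendsto (fun t : ℝ => -t) (𝓝 0) (𝓝 0) := by
      have := (continuous_neg (G := ℝ)).tendsto 0
      simpa using this
    exact ht.eventually h1
  have h3 := (h1.and h2).filter_mono (nhdsWithin_le_nhds (s := Set.Ioi (0 : ℝ)))
  obtain ⟨t, ⟨ht1, ht2⟩, ht3⟩ := (h3.and self_mem_nhdsWithin).exists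
  exact ⟨t, ht3, ht1, ht2⟩

/-- Convexity of the set of points with a given sign pattern. -/
lemma Pat.convex {x y : W} (hx : Pat f s P x) (hy : Pat f s P y) {a b : ℝ} (ha : 0 ≤ a)
    (hb : 0 ≤ b) (hab : 0 < a + b) : Pat f s P (a • x + b • y) := by
  intro i hi
  simp only [map_add, map_smul, smul_eq_mul]
  constructor
  · intro hP
    have h1 := (hx i hi).1 hP
    have h2 := (hy i hi).1 hP
    rcases ha.lt_or_eq with ha' | ha'
    · have := mul_pos ha' h1
      have := mul_nonneg hb h2.le
      linarith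
    · rw [← ha'] at hab ⊢
      have := mul_pos (by linarith : 0 < b) h2
      linarith
  · intro hP
    have h1 := (hx i hi).2 hP
    have h2 := (hy i hi).2 hP
    rcases ha.lt_or_eq with ha' | ha'
    · have := mul_neg_of_pos_of_neg ha' h1
      have := mul_nonpos_of_nonneg_of_nonpos hb h2.le
      linarith
    · rw [← ha'] at hab ⊢
      have := mul_neg_of_pos_of_neg (by linarith : 0 < b) h2
      linarith

lemma Pat.mono {s' : Finset ι} {x : W} (h : Pat f s P x) (hs : s' ⊆ s) : Pat f s' P x :=
  fun i hi => h i (hs hi)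

lemma Pat.congr {P' : Finset ι} {x : W} (h : Pat f s P x) (hP : ∀ i ∈ s, i ∈ P ↔ i ∈ P') :
    Pat f s P' x := by
  intro i hi
  exact ⟨fun h' => (h i hi).1 ((hP i hi).2 h'), fun h' => (h i hi).2 (fun h'' =>
    h' ((hP i hi).1 h''))⟩

/-- Deletion and restriction. -/
theorem card_Reg_insert {j : ι} (hj : j ∉ s) {u : W} (hu : u ∈ U) (huj : f j u ≠ 0) :
    (Reg f U (insert j s)).card = (Reg f U s).card + (Reg f (U ⊓ LinearMap.ker (f j)) s).card := by
  classical
  set N : Finset (Finset ι) := s.powerset.filter (fun P => ∃ x ∈ U, Pat f s P x ∧ f j x < 0) with hN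
  set Q : Finset (Finset ι) := s.powerset.filter (fun P => ∃ x ∈ U, Pat f s P x ∧ 0 < f j x) with hQ
  have hNm : ∀ P, P ∈ N ↔ P ⊆ s ∧ ∃ x ∈ U, Pat f s P x ∧ f j x < 0 := by intro P; simp [hN]
  have hQm : ∀ P, P ∈ Q ↔ P ⊆ s ∧ ∃ x ∈ U, Pat f s P x ∧ 0 < f j x := by intro P; simp [hQ]
  have hnot : ∀ P ⊆ s, j ∉ P := fun P hP h => hj (hP h)
  -- the patterns of `insert j s`
  have hreg : Reg f U (insert j s) = N ∪ Q.image (insert j) := by
    ext P
    simp only [mem_Reg, Finset.mem_union, Finset.mem_image, hNm, hQm]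
    constructor
    · rintro ⟨hP, x, hx, hpat⟩
      by_cases hjP : j ∈ P
      · right
        refine ⟨P.erase j, ⟨?_, x, hx, ?_, ?_⟩, Finset.insert_erase hjP⟩
        · intro i hi
          have := hP (Finset.mem_of_mem_erase hi)
          exact (Finset.mem_insert.1 this).resolve_left (Finset.ne_of_mem_erase hi)
        · intro i hi
          have hne : i ≠ j := fun h => hj (h ▸ hi)
          have := hpat i (Finset.mem_insert_of_mem hi)
          exact ⟨fun h => this.1 (Finset.mem_of_mem_erase h),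
            fun h => this.2 (fun h' => h (Finset.mem_erase.2 ⟨hne, h'⟩))⟩
        · exact (hpat j (Finset.mem_insert_self j s)).1 hjP
      · left
        refine ⟨?_, x, hx, hpat.mono (Finset.subset_insert j s), ?_⟩
        · intro i hi
          exact (Finset.mem_insert.1 (hP hi)).resolve_left (fun h => hjP (h ▸ hi))
        · exact (hpat j (Finset.mem_insert_self j s)).2 hjP
    · rintro (⟨hP, x, hx, hpat, hneg⟩ | ⟨P', ⟨hP, x, hx, hpat, hpos⟩, rfl⟩)
      · refine ⟨hP.trans (Finset.subset_insert j s), x, hx, ?_⟩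
        intro i hi
        rcases Finset.mem_insert.1 hi with rfl | hi
        · exact ⟨fun h => absurd h (hnot P hP), fun _ => hneg⟩
        · exact hpat i hi
      · refine ⟨Finset.insert_subset_insert j hP, x, hx, ?_⟩
        intro i hi
        rcases Finset.mem_insert.1 hi with rfl | hi
        · exact ⟨fun _ => hpos, fun h => absurd (Finset.mem_insert_self _ _) h⟩
        · have hne : i ≠ j := fun h => hj (h ▸ hi)
          exact ⟨fun h => (hpat i hi).1 ((Finset.mem_insert.1 h).resolve_left hne),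
            fun h => (hpat i hi).2 (fun h' => h (Finset.mem_insert_of_mem h'))⟩
  have hdisj : Disjoint N (Q.image (insert j)) := by
    rw [Finset.disjoint_left]
    intro P hP hP'
    obtain ⟨P', -, rfl⟩ := Finset.mem_image.1 hP'
    exact hnot _ ((hNm _).1 hP).1 (Finset.mem_insert_self j P')
  have hcard : (Q.image (insert j)).card = Q.card := by
    apply Finset.card_image_of_injOn
    intro P hP P' hP' h
    have h1 := hnot P ((hQm P).1 hP).1
    have h2 := hnot P' ((hQm P').1 hP').1
    have h3 : (insert j P).erase j = (insert j P').erase j := by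
      change insert j P = insert j P' at h
      rw [h]
    rwa [Finset.erase_insert h1, Finset.erase_insert h2] at h3
  have hunion : N ∪ Q = Reg f U s := by
    ext P
    simp only [mem_Reg, Finset.mem_union, hNm, hQm]
    constructor
    · rintro (⟨hP, x, hx, hpat, -⟩ | ⟨hP, x, hx, hpat, -⟩)
      · exact ⟨hP, x, hx, hpat⟩
      · exact ⟨hP, x, hx, hpat⟩
    · rintro ⟨hP, x, hx, hpat⟩
      rcases lt_trichotomy (f j x) 0 with h | h | h
      · exact Or.inl ⟨hP, x, hx, hpat, h⟩
      · obtain ⟨t, ht, hp1, hp2⟩ := hpat.exists_pos u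
        have e1 : f j (x + t • u) = t * f j u := by simp [h]
        have e2 : f j (x + (-t) • u) = -(t * f j u) := by simp [h]
        rcases lt_or_gt_of_ne huj with h' | h'
        · left
          exact ⟨hP, x + t • u, U.add_mem hx (U.smul_mem _ hu), hp1, by
            rw [e1]; exact mul_neg_of_pos_of_neg ht h'⟩
        · left
          exact ⟨hP, x + (-t) • u, U.add_mem hx (U.smul_mem _ hu), hp2, by
            rw [e2]; exact neg_neg_of_pos (mul_pos ht h')⟩
      · exact Or.inr ⟨hP, x, hx, hpat, h⟩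
  have hinter : N ∩ Q = Reg f (U ⊓ LinearMap.ker (f j)) s := by
    ext P
    simp only [mem_Reg, Finset.mem_inter, hNm, hQm]
    constructor
    · rintro ⟨⟨hP, x, hx, hpx, hneg⟩, -, y, hy, hpy, hpos⟩
      refine ⟨hP, (f j y) • x + (-(f j x)) • y, ?_, ?_⟩
      · refine ⟨U.add_mem (U.smul_mem _ hx) (U.smul_mem _ hy), ?_⟩
        change f j ((f j y) • x + (-(f j x)) • y) = 0
        simp only [map_add, map_smul, smul_eq_mul]
        ring
      · exact hpx.convex hpy hpos.le (by linarith) (by linarith)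
    · rintro ⟨hP, x, ⟨hxU, hxk⟩, hpat⟩
      have hx0 : f j x = 0 := LinearMap.mem_ker.1 hxk
      obtain ⟨t, ht, hp1, hp2⟩ := hpat.exists_pos u
      have e1 : f j (x + t • u) = t * f j u := by simp [hx0]
      have e2 : f j (x + (-t) • u) = -(t * f j u) := by simp [hx0]
      have m1 : x + t • u ∈ U := U.add_mem hxU (U.smul_mem _ hu)
      have m2 : x + (-t) • u ∈ U := U.add_mem hxU (U.smul_mem _ hu)
      rcases lt_or_gt_of_ne huj with h' | h'
      · refine ⟨⟨hP, _, m1, hp1, ?_⟩, hP, _, m2, hp2, ?_⟩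
        · rw [e1]; exact mul_neg_of_pos_of_neg ht h'
        · rw [e2]; have := mul_neg_of_pos_of_neg ht h'; linarith
      · refine ⟨⟨hP, _, m2, hp2, ?_⟩, hP, _, m1, hp1, ?_⟩
        · rw [e2]; have := mul_pos ht h'; linarith
        · rw [e1]; exact mul_pos ht h'
  rw [hreg, Finset.card_union_of_disjoint hdisj, hcard, ← hunion, ← hinter,
    Finset.card_union_add_card_inter]

end Pool.Agent.Lib.MP_3f465e_co
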