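import Pool.Agent.Lib.MP_3f465e_co.Counts

namespace Pool.Agent.Lib.MP_3f465e_co

open Finset Module

set_option linter.unusedSectionVars false

variable {W : Type*} [AddCommGroup W] [Module ℝ W] {ι : Type*} [DecidableEq ι]

variable {f : ι → W →ₗ[ℝ] ℝ} {U : Submodule ℝ W} {s P : Finset ι}

/-- The functionals with signs adjusted to the pattern `P`. -/
def adj (f : ι → W →ₗ[ℝ] ℝ) (P : Finset ι) (i : ι) : W →ₗ[ℝ] ℝ := if i ∈ P then f i else -f i

lemma Pat_iff {x : W} : Pat f s P x ↔ ∀ i ∈ s, 0 < adj f P i x := by
  unfold Pat adj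
  constructor
  · intro h i hi
    by_cases hP : i ∈ P
    · simp only [hP, if_true]; exact (h i hi).1 hP
    · simp only [hP, if_false, LinearMap.neg_apply]; have := (h i hi).2 hP; linarith
  · intro h i hi
    have := h i hi
    constructor
    · intro hP
      simpa only [hP, if_true] using this
    · intro hP
      simp only [hP, if_false, LinearMap.neg_apply] at this
      linarith

lemma adj_eq_zero_iff {x : W} {i : ι} : adj f P i x = 0 ↔ f i x = 0 := by
  unfold adj
  split_ifs
  · rfl
  · simp

/-- The wall condition: the pattern obtained by forgetting `j` is realized on the hyperplane `j`. -/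
def Wall (f : ι → W →ₗ[ℝ] ℝ) (A P : Finset ι) (j : ι) : Prop :=
  Rz f (LinearMap.ker (f j)) (A.erase j) (P.erase j)

/-- the functionals vanishing jointly on a big subspace -/
lemma exists_ne_zero_of_card [FiniteDimensional ℝ W] (M : Finset ι)
    (hM : M.card < finrank ℝ W) : ∃ u : W, u ≠ 0 ∧ ∀ i ∈ M, f i u = 0 := by
  have key : ∀ M : Finset ι, finrank ℝ W ≤
      finrank ℝ (⨅ i ∈ M, LinearMap.ker (f i) : Submodule ℝ W) + M.card := by
    intro M
    induction M using Finset.induction_on with
    | empty =>
      have h : (⨅ i ∈ (∅ : Finset ι), LinearMap.ker (f i) : Submodule ℝ W) = ⊤ := by simp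
      rw [h, finrank_top]
      exact Nat.le_add_right _ _
    | insert j M hj ih =>
      rw [Finset.card_insert_of_notMem hj, Finset.iInf_insert, inf_comm]
      by_cases h : ∃ u ∈ (⨅ i ∈ M, LinearMap.ker (f i) : Submodule ℝ W), f j u ≠ 0
      · have := finrank_inf_ker _ (f j) h
        omega
      · push Not at h
        have : (⨅ i ∈ M, LinearMap.ker (f i) : Submodule ℝ W) ⊓ LinearMap.ker (f j) =
            ⨅ i ∈ M, LinearMap.ker (f i) := by
          apply inf_eq_left.2
          intro u hu
          exact h u hu
        rw [this]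
        omega
  have h1 := key M
  have h2 : 0 < finrank ℝ (⨅ i ∈ M, LinearMap.ker (f i) : Submodule ℝ W) := by omega
  have h3 : (⨅ i ∈ M, LinearMap.ker (f i) : Submodule ℝ W) ≠ ⊥ := by
    intro h
    rw [h, finrank_bot] at h2
    exact lt_irrefl 0 h2
  obtain ⟨u, hu, hu0⟩ := Submodule.exists_mem_ne_zero_of_ne_bot h3
  refine ⟨u, hu0, fun i hi => ?_⟩
  simp only [Submodule.mem_iInf] at hu
  exact hu i hi

/-- Every region has at least `dim W` walls. -/
theorem card_walls [FiniteDimensional ℝ W] {A : Finset ι}
    (hne : ∀ i ∈ A, ∀ j ∈ A, i ≠ j → ∃ w : W, f j w = 0 ∧ f i w ≠ 0)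
    (hspan : ∀ u : W, (∀ i ∈ A, f i u = 0) → u = 0)
    (hP : P ∈ Reg f ⊤ A) :
    ∃ M ⊆ A, finrank ℝ W ≤ M.card ∧ ∀ j ∈ M, Wall f A P j := by
  classical
  obtain ⟨-, x, -, hx⟩ := mem_Reg.1 hP
  rw [Pat_iff] at hx
  -- minimal describing subset
  set F : Finset (Finset ι) := A.powerset.filter
    (fun M => ∀ y : W, Pat f M P y → Pat f A P y) with hF
  have hAF : A ∈ F := by simp [hF]
  obtain ⟨M, hMF, hmin⟩ := Finset.exists_min_image F Finset.card ⟨A, hAF⟩
  rw [hF, Finset.mem_filter, Finset.mem_powerset] at hMF
  obtain ⟨hMA, hM⟩ := hMF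
  refine ⟨M, hMA, ?_, ?_⟩
  · by_contra hlt
    push Not at hlt
    obtain ⟨u, hu0, hu⟩ := exists_ne_zero_of_card (f := f) M hlt
    apply hu0
    apply hspan
    intro i hi
    have hall : ∀ t : ℝ, 0 < adj f P i (x + t • u) := by
      intro t
      have h1 : Pat f M P (x + t • u) := by
        rw [Pat_iff]
        intro l hl
        have h2 : adj f P l u = 0 := adj_eq_zero_iff.2 (hu l hl)
        rw [map_add, map_smul, h2, smul_zero, add_zero]
        exact hx l (hMA hl)
      exact (Pat_iff.1 (hM _ h1)) i hi
    by_contra hne0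
    have hne1 : adj f P i u ≠ 0 := fun h => hne0 (adj_eq_zero_iff.1 h)
    have h1 := hall (-(adj f P i x) / adj f P i u)
    rw [map_add, map_smul, smul_eq_mul] at h1
    have h2 : -(adj f P i x) / adj f P i u * adj f P i u = -(adj f P i x) := by field_simp
    rw [h2] at h1
    linarith
  · intro j hj
    -- minimality gives a point
    have hnot : ¬ ∀ y : W, Pat f (M.erase j) P y → Pat f A P y := by
      intro h
      have hmem : M.erase j ∈ F := by
        rw [hF, Finset.mem_filter, Finset.mem_powerset]
        exact ⟨(Finset.erase_subset j M).trans hMA, h⟩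
      have h1 := hmin _ hmem
      have h2 := Finset.card_erase_lt_of_mem hj
      omega
    push Not at hnot
    obtain ⟨y, hy, hyA⟩ := hnot
    rw [Pat_iff] at hy
    have hyj : adj f P j y ≤ 0 := by
      by_contra hpos
      push Not at hpos
      apply hyA
      apply hM
      rw [Pat_iff]
      intro i hi
      by_cases hij : i = j
      · rw [hij]; exact hpos
      · exact hy i (Finset.mem_erase.2 ⟨hij, hi⟩)
    have hxj : 0 < adj f P j x := hx j (hMA hj)
    -- the key claim
    have claim : ∀ z : W, f j z = 0 → (∀ i ∈ M.erase j, 0 < adj f P i z) →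
        ∀ i ∈ A, 0 ≤ adj f P i z := by
      intro z hz hzM i hi
      have hall : ∀ t : ℝ, 0 < t → 0 < adj f P i z + t * adj f P i x := by
        intro t ht
        have h1 : Pat f M P (z + t • x) := by
          rw [Pat_iff]
          intro l hl
          rw [map_add, map_smul, smul_eq_mul]
          by_cases hlj : l = j
          · rw [hlj, adj_eq_zero_iff.2 hz, zero_add]
            exact mul_pos ht hxj
          · have := hzM l (Finset.mem_erase.2 ⟨hlj, hl⟩)
            have := mul_pos ht (hx l (hMA hl))
            linarith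
        have := (Pat_iff.1 (hM _ h1)) i hi
        rwa [map_add, map_smul, smul_eq_mul] at this
      by_contra hneg
      push Not at hneg
      have hxi := hx i hi
      have := hall (-(adj f P i z) / adj f P i x) (div_pos (by linarith) hxi)
      have h2 : -(adj f P i z) / adj f P i x * adj f P i x = -(adj f P i z) := by field_simp
      rw [h2] at this
      linarith
    set z : W := (-(adj f P j y)) • x + (adj f P j x) • y with hz
    have hzj : f j z = 0 := by
      rw [← adj_eq_zero_iff (P := P), hz]
      simp only [map_add, map_smul, smul_eq_mul]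
      ring
    have hzM : ∀ i ∈ M.erase j, 0 < adj f P i z := by
      intro i hi
      rw [hz]
      simp only [map_add, map_smul, smul_eq_mul]
      have h1 := hx i (hMA (Finset.mem_of_mem_erase hi))
      have h2 := hy i hi
      have h3 := mul_pos hxj h2
      have h4 : 0 ≤ -(adj f P j y) * adj f P i x := mul_nonneg (by linarith) h1.le
      linarith
    refine ⟨z, hzj, ?_⟩
    have hpos : ∀ i ∈ A.erase j, 0 < adj f P i z := by
      intro i hi
      have hiA := Finset.mem_of_mem_erase hi
      have hij := Finset.ne_of_mem_erase hi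
      refine lt_of_le_of_ne (claim z hzj hzM i hiA) (fun h0 => ?_)
      -- perturb inside the hyperplane
      obtain ⟨w, hwj, hwi⟩ := hne i hiA j (hMA hj) hij
      have hwi' : adj f P i w ≠ 0 := fun h => hwi (adj_eq_zero_iff.1 h)
      have hpat : Pat f (M.erase j) P z := Pat_iff.2 hzM
      obtain ⟨t, ht, hp1, hp2⟩ := hpat.exists_pos w
      rcases lt_or_gt_of_ne hwi' with h | h
      · have h1 := claim (z + t • w) (by rw [map_add, map_smul, hzj, hwj]; simp)
          (Pat_iff.1 hp1) i hiA
        rw [map_add, map_smul, ← h0, zero_add, smul_eq_mul] at h1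
        have := mul_neg_of_pos_of_neg ht h
        linarith
      · have h1 := claim (z + (-t) • w) (by rw [map_add, map_smul, hzj, hwj]; simp)
          (Pat_iff.1 hp2) i hiA
        rw [map_add, map_smul, ← h0, zero_add, smul_eq_mul] at h1
        have := mul_pos ht h
        linarith
    have hpat : Pat f (A.erase j) P z := Pat_iff.2 hpos
    exact hpat.congr (fun i hi => by
      simp only [Finset.mem_erase]
      exact ⟨fun h => ⟨Finset.ne_of_mem_erase hi, h⟩, fun h => h.2⟩)

end Pool.Agent.Lib.MP_3f465e_co
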